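import Pool.Agent.Lib.MP_4dc748_co.RS.Sk
import Pool.Agent.Lib.MP_4dc748_co.TC.Arc

/-!
# From arcs in PHG(2, F4[X; s]/(X^2)) to families of subsets of the 21 classes

The 21 classes p : Fin 21 have the representatives vec p (first nonzero coordinate 1). The points in class p are
the pairs t = (t1, t2), the point is (vec p, bpt p t). The line (a, c), a : Fin 21, c a vector, contains the point
(p, t) iff vec a ⬝ᵥ vec p = 0 and lab a p t = c ⬝ᵥ s(vec p), where lab a p t = vec a ⬝ᵥ bpt p t.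
-/

set_option autoImplicit false

namespace Pool.Agent.Lib.MP_4dc748_co.RS

open Pool.Agent.Lib.MP_4dc748_co.TA

/-- The element of F4 with number n: 0, 1, w, w + 1. -/
def el : ℕ → F4
  | 0 => F4.o
  | 1 => F4.i
  | 2 => F4.w
  | _ => F4.v

/-- The representative of the class p: (0,0,1), then (0,1,z), then (1,y,z). -/
def vec (p : Fin 21) : Fin 3 → F4 :=
  if p.1 = 0 then ![0, 0, 1]
  else if p.1 < 5 then ![0, 1, el (p.1 - 1)]
  else ![1, el ((p.1 - 5) / 4), el ((p.1 - 5) % 4)]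

/-- The second coordinate of the point t in the class p: the coordinate of b at the place of the leading 1 is 0. -/
def bpt (p : Fin 21) (t : F4 × F4) : Fin 3 → F4 :=
  if p.1 = 0 then ![t.1, t.2, 0]
  else if p.1 < 5 then ![t.1, 0, t.2]
  else ![0, t.1, t.2]

/-- The label of the segment of the point t of the class p in the direction a. -/
def lab (a p : Fin 21) (t : F4 × F4) : F4 := vec a ⬝ᵥ bpt p t

/-- The number of points of K in the class p with label x in direction a. -/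
def cnt (K : Fin 21 → Finset (F4 × F4)) (a p : Fin 21) (x : F4) : ℕ :=
  ((K p).filter (fun t => lab a p t = x)).card

/-- The arc condition: every line (a, c) has at most n points of K. -/
def LineBound (s : F4 ≃+* F4) (n : ℕ) (K : Fin 21 → Finset (F4 × F4)) : Prop :=
  ∀ (a : Fin 21) (c : Fin 3 → F4),
    ∑ p : Fin 21, (if vec a ⬝ᵥ vec p = 0 then cnt K a p (c ⬝ᵥ (s ∘ vec p)) else 0) ≤ n

theorem exists_class_aux : ∀ x y z : F4, (x ≠ 0 ∨ y ≠ 0 ∨ z ≠ 0) →
    ∃ (p : Fin 21) (e : F4), e ≠ 0 ∧ x = e * vec p 0 ∧ y = e * vec p 1 ∧ z = e * vec p 2 := by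
  decide +kernel

theorem exists_class {v : Fin 3 → F4} (hv : v ≠ 0) :
    ∃ (p : Fin 21) (e : F4), e ≠ 0 ∧ v = e • vec p := by
  have h1 : v 0 ≠ 0 ∨ v 1 ≠ 0 ∨ v 2 ≠ 0 := by
    by_contra h
    push Not at h
    apply hv
    funext i
    fin_cases i
    exacts [h.1, h.2.1, h.2.2]
  obtain ⟨p, e, he, h0, h1, h2⟩ := exists_class_aux _ _ _ h1
  refine ⟨p, e, he, ?_⟩
  funext i
  fin_cases i
  exacts [h0, h1, h2]

theorem vec_ne_zero : ∀ p : Fin 21, vec p ≠ 0 := by
  decide +kernel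

theorem class_inj_aux : ∀ (p q : Fin 21) (e : F4),
    (vec p 0 = e * vec q 0 ∧ vec p 1 = e * vec q 1 ∧ vec p 2 = e * vec q 2) → p = q ∧ e = 1 := by
  decide +kernel

theorem class_inj {p q : Fin 21} {e : F4} (h : vec p = e • vec q) : p = q ∧ e = 1 :=
  class_inj_aux p q e ⟨congrFun h 0, congrFun h 1, congrFun h 2⟩

theorem exists_bpt_aux : ∀ (p : Fin 21) (x y z : F4), ∃ (t1 t2 d : F4),
    x = d * vec p 0 + bpt p (t1, t2) 0 ∧ y = d * vec p 1 + bpt p (t1, t2) 1 ∧
      z = d * vec p 2 + bpt p (t1, t2) 2 := by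
  decide +kernel

theorem exists_bpt (p : Fin 21) (b : Fin 3 → F4) : ∃ (t : F4 × F4) (d : F4), b = d • vec p + bpt p t := by
  obtain ⟨t1, t2, d, h0, h1, h2⟩ := exists_bpt_aux p (b 0) (b 1) (b 2)
  refine ⟨(t1, t2), d, ?_⟩
  funext i
  fin_cases i
  exacts [h0, h1, h2]

theorem bpt_inj_aux : ∀ (p : Fin 21) (t1 t2 r1 r2 d : F4),
    (bpt p (t1, t2) 0 = d * vec p 0 + bpt p (r1, r2) 0 ∧ bpt p (t1, t2) 1 = d * vec p 1 + bpt p (r1, r2) 1 ∧
      bpt p (t1, t2) 2 = d * vec p 2 + bpt p (r1, r2) 2) → t1 = r1 ∧ t2 = r2 := by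
  decide +kernel

theorem bpt_inj {p : Fin 21} {t r : F4 × F4} {d : F4} (h : bpt p t = d • vec p + bpt p r) : t = r := by
  have := bpt_inj_aux p t.1 t.2 r.1 r.2 d ⟨congrFun h 0, congrFun h 1, congrFun h 2⟩
  exact Prod.ext this.1 this.2

variable {s : F4 ≃+* F4}

theorem inc_iff {a c v b : Fin 3 → F4} {p : Fin 21} {t : F4 × F4} {e d : F4} (he : e ≠ 0)
    (hv : v = e • vec p) (hb : b = s e • (d • vec p + bpt p t)) :
    Inc s a c v b ↔ Inc s a c (vec p) (bpt p t) := by
  have h1 : a ⬝ᵥ v = e * (a ⬝ᵥ vec p) := by rw [hv, dotProduct_smul, smul_eq_mul]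
  have h2 : a ⬝ᵥ b = s e * (d * (a ⬝ᵥ vec p) + a ⬝ᵥ bpt p t) := by
    rw [hb, dotProduct_smul, smul_eq_mul, dotProduct_add, dotProduct_smul, smul_eq_mul]
  have h3 : s ∘ v = s e • (s ∘ vec p) := by
    funext i
    rw [hv]
    simp
  have h4 : s e ≠ 0 := by
    rw [Ne, map_eq_zero_iff s s.injective]
    exact he
  unfold Inc
  rw [h1, h2, h3, dotProduct_smul, smul_eq_mul]
  constructor
  · rintro ⟨h5, h6⟩
    have h7 : a ⬝ᵥ vec p = 0 := (mul_eq_zero.1 h5).resolve_left he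
    rw [h7, mul_zero, zero_add, ← mul_add] at h6
    exact ⟨h7, (mul_eq_zero.1 h6).resolve_left h4⟩
  · rintro ⟨h5, h6⟩
    refine ⟨by rw [h5, mul_zero], ?_⟩
    rw [h5, mul_zero, zero_add, ← mul_add, h6, mul_zero]

open scoped Classical in
theorem card_filter_inc (K : Fin 21 → Finset (F4 × F4)) (a : Fin 21) (c : Fin 3 → F4) :
    ((Finset.univ.sigma K).filter (fun x : (_ : Fin 21) × (F4 × F4) =>
      Inc s (vec a) c (vec x.1) (bpt x.1 x.2))).card =
    ∑ p : Fin 21, (if vec a ⬝ᵥ vec p = 0 then cnt K a p (c ⬝ᵥ (s ∘ vec p)) else 0) := by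
  rw [Finset.card_filter, Finset.sum_sigma]
  refine Finset.sum_congr rfl fun p _ => ?_
  by_cases h : vec a ⬝ᵥ vec p = 0
  · rw [if_pos h, cnt, Finset.card_filter]
    refine Finset.sum_congr rfl fun t _ => ?_
    have h1 : Inc s (vec a) c (vec p) (bpt p t) ↔ lab a p t = c ⬝ᵥ (s ∘ vec p) := by
      unfold Inc lab
      rw [CharTwo.add_eq_zero]
      exact ⟨fun h2 => h2.2, fun h2 => ⟨h, h2⟩⟩
    simp only [h1]
  · rw [if_neg h]
    refine Finset.sum_eq_zero fun t _ => ?_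
    rw [if_neg]
    exact fun h1 => h h1.1

/-- Upper bound. -/
theorem arcMax_le (s : F4 ≃+* F4) {n N : ℕ}
    (h : ∀ K : Fin 21 → Finset (F4 × F4), LineBound s n K → ∑ p, (K p).card ≤ N) :
    arcMax (Sk F4 s) n ≤ N := by
  classical
  refine csSup_le ⟨_, ∅, ⟨by simp, by simp⟩, rfl⟩ ?_
  rintro k ⟨A, hA, rfl⟩
  refine TC.coord_upper (Sk.coord (F := F4) (s := s)) (fun ι _ v b hv hd hl => ?_) hA
  choose p e he hp using fun i => exists_class (hv i)
  have hs : ∀ i, s (e i) ≠ 0 := fun i => by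
    rw [Ne, map_eq_zero_iff s s.injective]
    exact he i
  choose t d ht using fun i => exists_bpt (p i) ((s (e i))⁻¹ • b i)
  have hb : ∀ i, b i = s (e i) • (d i • vec (p i) + bpt (p i) (t i)) := by
    intro i
    rw [← ht i, smul_smul, mul_inv_cancel₀ (hs i), one_smul]
  let f : ι → (_ : Fin 21) × (F4 × F4) := fun i => ⟨p i, t i⟩
  have hf : Function.Injective f := by
    intro i j hij
    by_contra hne
    have h1 : p i = p j := congrArg Sigma.fst hij
    have h2 : t i = t j := by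
      have h3 := (Sigma.mk.inj_iff.1 hij).2
      exact eq_of_heq h3
    refine hd i j hne (e j * (e i)⁻¹) (s (e j) * (d j + d i) * (e i)⁻¹) ⟨?_, ?_⟩
    · rw [hp j, hp i, ← h1, smul_smul, mul_assoc, inv_mul_cancel₀ (he i), mul_one]
    · have h4 : s (e j * (e i)⁻¹) * s (e i) = s (e j) := by
        rw [← map_mul, mul_assoc, inv_mul_cancel₀ (he i), mul_one]
      have h5 : s (e j) * (d j + d i) * (e i)⁻¹ * e i = s (e j) * (d j + d i) := by
        rw [mul_assoc, inv_mul_cancel₀ (he i), mul_one]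
      rw [hb i, hb j, hp i, smul_smul, smul_smul, h4, h5, ← h1, ← h2]
      funext k
      simp only [Pi.add_apply, Pi.smul_apply, smul_eq_mul]
      have h6 : d i * vec (p i) k + d i * vec (p i) k = 0 := F4.add_self _
      linear_combination (- s (e j)) * h6
  let K : Fin 21 → Finset (F4 × F4) := fun q => Finset.univ.filter (fun r => ∃ i, p i = q ∧ t i = r)
  have hK : Finset.univ.sigma K = Finset.univ.image f := by
    ext ⟨q, r⟩
    simp only [Finset.mem_sigma, Finset.mem_univ, true_and, K, Finset.mem_filter, Finset.mem_image, f]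
    constructor
    · rintro ⟨i, h1, h2⟩
      exact ⟨i, by rw [h1, h2]⟩
    · rintro ⟨i, h1⟩
      exact ⟨i, congrArg Sigma.fst h1, eq_of_heq (Sigma.mk.inj_iff.1 h1).2⟩
  have hcard : ∑ q, (K q).card = Fintype.card ι := by
    rw [← Finset.card_sigma, hK, Finset.card_image_of_injective _ hf, Finset.card_univ]
  rw [← hcard]
  refine h K fun a c => ?_
  rw [← card_filter_inc, hK, Finset.filter_image, Finset.card_image_of_injective _ hf]
  refine le_trans (Finset.card_le_card ?_) (hl (vec a) c (vec_ne_zero a))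
  intro i hi
  rw [Finset.mem_filter] at hi ⊢
  exact ⟨Finset.mem_univ _, (inc_iff (he i) (hp i) (hb i)).2 hi.2⟩

/-- Lower bound. -/
theorem le_arcMax (s : F4 ≃+* F4) {n : ℕ} (K : Fin 21 → Finset (F4 × F4)) (hK : LineBound s n K) :
    ∑ p, (K p).card ≤ arcMax (Sk F4 s) n := by
  classical
  have hfin : Finite (Submodule (Sk F4 s)ᵐᵒᵖ (Fin 3 → Sk F4 s)) := plane_finite
  have hbdd : BddAbove {k : ℕ | ∃ A, IsArc (Sk F4 s) n A ∧ A.ncard = k} := by
    refine ⟨Nat.card (Submodule (Sk F4 s)ᵐᵒᵖ (Fin 3 → Sk F4 s)), ?_⟩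
    rintro k ⟨A, -, rfl⟩
    rw [← Set.ncard_univ]
    exact Set.ncard_le_ncard (Set.subset_univ _) (Set.toFinite _)
  obtain ⟨A, hA, hAc⟩ := TC.coord_lower (Sk.coord (F := F4) (s := s)) (n := n)
    (ι := (Finset.univ.sigma K : Finset ((_ : Fin 21) × (F4 × F4))))
    (v := fun x => vec x.1.1) (b := fun x => bpt x.1.1 x.1.2) (fun x => vec_ne_zero _)
    (by
      rintro ⟨⟨p, t⟩, hx⟩ ⟨⟨q, r⟩, hy⟩ hne c d ⟨h1, h2⟩
      obtain ⟨h3, h4⟩ := class_inj h1
      change q = p at h3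
      subst h3
      change bpt q r = d • vec q + s c • bpt q t at h2
      rw [h4, map_one, one_smul] at h2
      have h5 := bpt_inj h2
      exact hne (by simp [h5]))
    (by
      intro a c ha
      obtain ⟨q, e, he, hq⟩ := exists_class ha
      have h1 : ∀ x : (_ : Fin 21) × (F4 × F4), Inc s a c (vec x.1) (bpt x.1 x.2) ↔
          Inc s (vec q) (e⁻¹ • c) (vec x.1) (bpt x.1 x.2) := by
        intro x
        have h2 : ∀ y, a ⬝ᵥ y = e * (vec q ⬝ᵥ y) := fun y => by rw [hq, smul_dotProduct, smul_eq_mul]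
        have h3 : ∀ y, c ⬝ᵥ y = e * ((e⁻¹ • c) ⬝ᵥ y) := fun y => by
          rw [smul_dotProduct, smul_eq_mul, ← mul_assoc, mul_inv_cancel₀ he, one_mul]
        unfold Inc
        rw [h2, h2, h3, ← mul_add, mul_eq_zero, mul_eq_zero]
        simp [he]
      have h4 := hK q (e⁻¹ • c)
      rw [← card_filter_inc] at h4
      refine le_trans ?_ h4
      refine Finset.card_le_card_of_injOn (fun x => x.1) ?_ (fun x _ y _ hxy => Subtype.ext hxy)
      intro x hx
      rw [Finset.mem_coe, Finset.mem_filter] at hx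
      rw [Finset.mem_coe, Finset.mem_filter]
      exact ⟨x.2, (h1 x.1).1 hx.2⟩)
  have h1 : Fintype.card (Finset.univ.sigma K : Finset ((_ : Fin 21) × (F4 × F4))) = ∑ p, (K p).card := by
    rw [Fintype.card_coe, Finset.card_sigma]
  rw [← h1, ← hAc]
  exact le_csSup hbdd ⟨A, hA, rfl⟩

end Pool.Agent.Lib.MP_4dc748_co.RS
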