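import Pool.Agent.Lib.MP_4dc748_co.RS.ArcS

/-!
# The negative answer from the statement on F4[X; Frobenius]/(X^2)
-/

set_option autoImplicit false

namespace Pool.Agent.Lib.MP_4dc748_co.RS

open Pool.Agent.Lib.MP_4dc748_co.TA

/-- The rings S = F4[X]/(X^2) and T = F4[X; Frobenius]/(X^2). -/
theorem frob_ne : ∃ c, F4.frob c ≠ c := ⟨F4.w, by decide⟩

/-- If PHG(2, T) has no arc with 99 points and n = 7, then Q1 has a negative answer. -/
theorem negative
    (hT : ∀ K : Fin 21 → Finset (F4 × F4), LineBound F4.frob 7 K → ∑ p, (K p).card ≤ 98) :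
    ∃ (F : Type) (_ : Field F) (_ : Finite F) (R R' : Type) (_ : Ring R) (_ : Ring R')
      (_ : Finite R) (_ : Finite R'),
      Nat.card F = 4 ∧ IsChainRing R ∧ IsChainRing R' ∧ Nat.card R = 4 ^ 2 ∧ Nat.card R' = 4 ^ 2 ∧
      Nonempty ((R ⧸ Ring.jacobson R) ≃+* F) ∧ Nonempty ((R' ⧸ Ring.jacobson R') ≃+* F) ∧
      CharP R 2 ∧ CharP R' 2 ∧ IsEmpty (R ≃+* R') ∧
      99 ≤ arcMax R 7 ∧ arcMax R' 7 ≤ 98 := by
  have h4 : Nat.card F4 = 4 := by
    rw [Nat.card_eq_fintype_card]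
    exact F4.card_F4
  refine ⟨F4, inferInstance, inferInstance, Sk F4 (RingEquiv.refl F4), Sk F4 F4.frob,
    inferInstance, inferInstance, inferInstance, inferInstance, h4, Sk.isChainRing _ _,
    Sk.isChainRing _ _, ?_, ?_, Sk.residue _ _, Sk.residue _ _, inferInstance, inferInstance,
    Sk.not_iso frob_ne, le_arcMax_S, arcMax_le _ hT⟩
  · rw [Sk.card_eq, h4]
  · rw [Sk.card_eq, h4]

/-- The same as the negation of Q1. -/
theorem not_Q1
    (hT : ∀ K : Fin 21 → Finset (F4 × F4), LineBound F4.frob 7 K → ∑ p, (K p).card ≤ 98) :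
    ¬ ∀ (F : Type) [Field F] [Finite F] (R R' : Type) [Ring R] [Ring R'] [Finite R] [Finite R'],
      IsChainRing R → IsChainRing R' →
      Nat.card R = Nat.card F ^ 2 → Nat.card R' = Nat.card F ^ 2 →
      Nonempty ((R ⧸ Ring.jacobson R) ≃+* F) → Nonempty ((R' ⧸ Ring.jacobson R') ≃+* F) →
      ringChar R = ringChar R' → IsEmpty (R ≃+* R') →
      ∀ n ≤ Nat.card F ^ 2 + Nat.card F, arcMax R n = arcMax R' n := by
  intro hQ
  obtain ⟨F, iF, jF, R, R', iR, iR', jR, jR', hF, hR, hR', cR, cR', rR, rR', chR, chR', hiso, h1, h2⟩ :=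
    negative hT
  have h3 := hQ F R R' hR hR' (by rw [cR, hF]) (by rw [cR', hF]) rR rR'
    (by rw [ringChar.eq R 2, ringChar.eq R' 2]) hiso 7 (by rw [hF]; norm_num)
  omega

end Pool.Agent.Lib.MP_4dc748_co.RS
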