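import Pool.Agent.Lib.MP_4dc748_co.RS.Local
import Pool.Agent.Lib.MP_4dc748_co.LL.Conf

/-!
# The class level configuration of a 99-arc
-/

set_option autoImplicit false

namespace Pool.Agent.Lib.MP_4dc748_co.RS

open Pool.Agent.Lib.MP_4dc748_co.LL

variable {K : Fin 21 → Finset (F4 × F4)}

theorem exists_pq {c : ℕ} {f : F4 → ℕ} (h : IsPat c f) : ∃ x, f x = (pq c).1 := by
  obtain ⟨e, he, h1⟩ := h
  obtain ⟨x, hx⟩ := (Finite.injective_iff_surjective.1 he) F4.o
  exact ⟨x, by rw [h1 x, hx]; rfl⟩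

theorem TY_types : ∀ T ∈ TY, T.2 ∈ types := by decide +kernel

/-- The configuration of an arc with 99 points. -/
def toConf (K : Fin 21 → Finset (F4 × F4)) (h : LineBound F4.frob 7 K) (h99 : ∑ q, (K q).card = 99) : Conf where
  u := fun p => (K p).card
  c := pc K
  hc := fun _ _ hp => (pc_le h h99 hp).1
  hsz := fun _ _ hp => (pc_le h h99 hp).2
  hrz := fun a => by
    have hp : ∀ i, IsPat (pc K a (cl a i)) (cnt K a (cl a i)) := fun i => isPat_pc h h99 (cl_on a i)
    have h1 : Rz (pc K a (cl a 0)) (pc K a (cl a 1)) (pc K a (cl a 2)) (pc K a (cl a 4)) (pc K a (cl a 3)) :=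
      ⟨_, _, _, _, _, ok_frob h a, hp 0, hp 1, hp 2, hp 4, hp 3⟩
    exact h1.swap3
  hmx := fun a p hp => by
    obtain ⟨x, hx⟩ := exists_pq (isPat_pc h h99 hp)
    have h1 := L1 h hp x
    rw [hx] at h1
    exact h1
  hW := fun p => by
    have h1 := L2 (K := K) p
    have h2 : ∑ q, u K q = 99 := h99
    rw [h2] at h1
    exact h1
  htype := fun p => by
    obtain ⟨T, hT, _, hperm⟩ := class_type h h99 p
    exact ⟨T.2, TY_types T hT, hperm⟩

theorem toConf_u (h : LineBound F4.frob 7 K) (h99 : ∑ q, (K q).card = 99) (p : Fin 21) :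
    (toConf K h h99).u p = (K p).card := rfl

/-- No class has more than 8 points. -/
theorem card_le_eight (h : LineBound F4.frob 7 K) (h99 : ∑ q, (K q).card = 99) (p : Fin 21) : (K p).card ≤ 8 := by
  obtain ⟨T, hT, hu, _⟩ := class_type h h99 p
  have h1 : ∀ T ∈ TY, T.1 ≤ 8 := by decide +kernel
  have h2 : T.1 = (K p).card := hu
  rw [← h2]
  exact h1 T hT

end Pool.Agent.Lib.MP_4dc748_co.RS
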