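import Pool.Agent.Lib.MP_4dc748_co.CL.Main
import Pool.Agent.Lib.MP_4dc748_co.RS.ToConf
import Pool.Agent.Lib.MP_4dc748_co.RS.Final

/-!
# The negative answer
-/

set_option autoImplicit false

namespace Pool.Agent.Lib.MP_4dc748_co.RS

open Pool.Agent.Lib.MP_4dc748_co.TA

/-- PHG(2, F4[X; Frobenius]/(X^2)) has no arc with 99 points and at most 7 points on a line. -/
theorem card_le_98 (K : Fin 21 → Finset (F4 × F4)) (h : LineBound F4.frob 7 K) : ∑ p, (K p).card ≤ 98 := by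
  by_contra hcon
  obtain ⟨K', hK', h99⟩ := exists_99 h (by omega)
  exact CL.no99 K' hK' h99 (toConf K' hK' h99) (fun _ => rfl)

/-- The two rings have different m_7. -/
theorem answer :
    ∃ (F : Type) (_ : Field F) (_ : Finite F) (R R' : Type) (_ : Ring R) (_ : Ring R')
      (_ : Finite R) (_ : Finite R'),
      Nat.card F = 4 ∧ IsChainRing R ∧ IsChainRing R' ∧ Nat.card R = 4 ^ 2 ∧ Nat.card R' = 4 ^ 2 ∧
      Nonempty ((R ⧸ Ring.jacobson R) ≃+* F) ∧ Nonempty ((R' ⧸ Ring.jacobson R') ≃+* F) ∧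
      CharP R 2 ∧ CharP R' 2 ∧ IsEmpty (R ≃+* R') ∧
      99 ≤ arcMax R 7 ∧ arcMax R' 7 ≤ 98 := negative card_le_98

end Pool.Agent.Lib.MP_4dc748_co.RS
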