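import Pool.Agent.Lib.MP_4dc748_co.RS.Iface

/-!
# An arc with 99 points and at most 7 on a line over F4[X]/(X^2)
-/

set_option autoImplicit false

namespace Pool.Agent.Lib.MP_4dc748_co.RS

/-- The point sets of the classes as bit masks: the bit of t = (t1, t2) is 4 t1 + t2. -/
def maskS : List ℕ := [644, 1042, 13105, 21589, 26150, 33794, 52364, 21829, 26150, 127, 261, 1538,
  6400, 3343, 4101, 2562, 800, 3056, 49160, 70, 4864]

/-- The number of an element of F4. -/
def code : F4 → ℕ
  | F4.o => 0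
  | F4.i => 1
  | F4.w => 2
  | F4.v => 3

/-- The arc. -/
def arcS (p : Fin 21) : Finset (F4 × F4) :=
  Finset.univ.filter (fun t => Nat.testBit (maskS.getD p.1 0) (4 * code t.1 + code t.2) = true)

theorem card_arcS : ∑ p, (arcS p).card = 99 := by decide +kernel


theorem arcS_aux : ∀ (a : Fin 21) (x y z : F4),
    ∑ p : Fin 21, (if vec a ⬝ᵥ vec p = 0 then
      cnt arcS a p (x * vec p 0 + y * vec p 1 + z * vec p 2) else 0) ≤ 7 := by
  decide +kernel

theorem lineBound_arcS : LineBound (RingEquiv.refl F4) 7 arcS := by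
  intro a c
  have h := arcS_aux a (c 0) (c 1) (c 2)
  refine le_trans (le_of_eq ?_) h
  refine Finset.sum_congr rfl fun p _ => ?_
  have h1 : c ⬝ᵥ (RingEquiv.refl F4 ∘ vec p) = c 0 * vec p 0 + c 1 * vec p 1 + c 2 * vec p 2 := by
    simp [dotProduct, Fin.sum_univ_three]
  rw [h1]

/-- m_7(F4[X]/(X^2)) is at least 99. -/
theorem le_arcMax_S : 99 ≤ TA.arcMax (Sk F4 (RingEquiv.refl F4)) 7 := by
  rw [← card_arcS]
  exact le_arcMax _ arcS lineBound_arcS

end Pool.Agent.Lib.MP_4dc748_co.RS
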