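import Mathlib

/-!
# The field with four elements, explicitly
-/

set_option autoImplicit false

namespace Pool.Agent.Lib.MP_4dc748_co.RS

/-- The field with four elements 0, 1, w, w + 1 = w^2. -/
inductive F4 : Type
  | o : F4
  | i : F4
  | w : F4
  | v : F4
  deriving DecidableEq

namespace F4

instance : Fintype F4 where
  elems := ⟨[o, i, w, v], by simp⟩
  complete := by intro x; cases x <;> decide

/-- Addition. -/
def add : F4 → F4 → F4
  | o, x => x
  | i, o => i
  | i, i => o
  | i, w => v
  | i, v => w
  | w, o => w
  | w, i => v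
  | w, w => o
  | w, v => i
  | v, o => v
  | v, i => w
  | v, w => i
  | v, v => o

/-- Multiplication. -/
def mul : F4 → F4 → F4
  | o, _ => o
  | i, x => x
  | w, o => o
  | w, i => w
  | w, w => v
  | w, v => i
  | v, o => o
  | v, i => v
  | v, w => i
  | v, v => w

/-- Inverse. -/
def inv : F4 → F4
  | o => o
  | i => i
  | w => v
  | v => w

instance : Zero F4 := ⟨o⟩
instance : One F4 := ⟨i⟩
instance : Add F4 := ⟨add⟩
instance : Mul F4 := ⟨mul⟩
instance : Neg F4 := ⟨fun x => x⟩
instance : Inv F4 := ⟨inv⟩

theorem forall_iff (P : F4 → Prop) : (∀ x, P x) ↔ P o ∧ P i ∧ P w ∧ P v :=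
  ⟨fun h => ⟨h o, h i, h w, h v⟩, fun h x => by
    cases x
    exacts [h.1, h.2.1, h.2.2.1, h.2.2.2]⟩

instance : Field F4 where
  add_assoc := by decide
  zero_add := by decide
  add_zero := by decide
  add_comm := by decide
  mul_assoc := by decide
  one_mul := by decide
  mul_one := by decide
  mul_comm := by decide
  left_distrib := by decide
  right_distrib := by decide
  zero_mul := by decide
  mul_zero := by decide
  neg_add_cancel := by decide
  nsmul := nsmulRec
  zsmul := zsmulRec
  inv_zero := by decide
  mul_inv_cancel := by decide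
  exists_pair_ne := ⟨o, i, by decide⟩
  nnqsmul := _
  nnqsmul_def := fun _ _ => rfl
  qsmul := _
  qsmul_def := fun _ _ => rfl

theorem card_F4 : Fintype.card F4 = 4 := by decide

theorem add_self (x : F4) : x + x = 0 := by
  revert x
  decide

instance : CharP F4 2 := CharTwo.of_one_ne_zero_of_two_eq_zero (by decide) (by decide)

/-- The Frobenius automorphism. -/
def frob : F4 ≃+* F4 where
  toFun := fun x => x * x
  invFun := fun x => x * x
  left_inv := by decide
  right_inv := by decide
  map_mul' := by decide
  map_add' := by decide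

@[simp]
theorem frob_apply (x : F4) : frob x = x * x := rfl

end F4

end Pool.Agent.Lib.MP_4dc748_co.RS
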