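import Pool.Agent.Lib.MP_4dc748_co.RS.Types
import Pool.Agent.Lib.MP_4dc748_co.LL.Link

/-!
# Local counting and the types of the classes of a 99-arc
-/

set_option autoImplicit false

namespace Pool.Agent.Lib.MP_4dc748_co.RS

open Pool.Agent.Lib.MP_4dc748_co.LL

/-- The number of points of the class p. -/
def u (K : Fin 21 → Finset (F4 × F4)) (p : Fin 21) : ℕ := (K p).card

/-- The number of points over the line class a. -/
def wt (K : Fin 21 → Finset (F4 × F4)) (a : Fin 21) : ℕ :=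
  u K (cl a 0) + u K (cl a 1) + u K (cl a 2) + u K (cl a 3) + u K (cl a 4)

/-- The number of the pattern of the class p in the direction a. -/
def pc (K : Fin 21 → Finset (F4 × F4)) (a p : Fin 21) : ℕ := codeOf (hist (cnt K a p))

/-- The direction of the line class cl p i in the class p. -/
def dj (p : Fin 21) (i : Fin 5) : Fin 5 :=
  if lab (cl p i) p (F4.i, F4.o) = 0 then 0
  else ⟨(cd ((lab (cl p i) p (F4.i, F4.o))⁻¹ * lab (cl p i) p (F4.o, F4.i)) + 1) % 5, Nat.mod_lt _ (by norm_num)⟩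

/-- The factor. -/
def de (p : Fin 21) (i : Fin 5) : F4 :=
  if lab (cl p i) p (F4.i, F4.o) = 0 then lab (cl p i) p (F4.o, F4.i) else lab (cl p i) p (F4.i, F4.o)

theorem lab_dj : ∀ (p : Fin 21) (i : Fin 5) (t : F4 × F4), lab (cl p i) p t = de p i * phi (dj p i) t := by
  decide +kernel

theorem de_ne : ∀ (p : Fin 21) (i : Fin 5), de p i ≠ 0 := by
  decide +kernel

theorem dj_perm : ∀ p : Fin 21, [dj p 0, dj p 1, dj p 2, dj p 3, dj p 4].Perm [0, 1, 2, 3, 4] := by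
  decide +kernel

variable {K : Fin 21 → Finset (F4 × F4)}

theorem cnt_dj (p : Fin 21) (i : Fin 5) (x : F4) :
    cnt K (cl p i) p x = ct (K p) (dj p i) ((de p i)⁻¹ * x) := by
  unfold cnt ct
  congr 1
  refine Finset.filter_congr fun t _ => ?_
  rw [lab_dj]
  constructor
  · intro h
    rw [← h, ← mul_assoc, inv_mul_cancel₀ (de_ne p i), one_mul]
  · intro h
    rw [h, ← mul_assoc, mul_inv_cancel₀ (de_ne p i), one_mul]

theorem mul_cases : ∀ e : F4, e ≠ 0 → (e = F4.i ∨ e = F4.w ∨ e = F4.v) := by decide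

theorem hist_mul (n : F4 → ℕ) {e : F4} (he : e ≠ 0) : hist (fun x => n (e * x)) = hist n := by
  rcases mul_cases e he with rfl | rfl | rfl
  · change 8 ^ n F4.o + 8 ^ n F4.i + 8 ^ n F4.w + 8 ^ n F4.v = 8 ^ n F4.o + 8 ^ n F4.i + 8 ^ n F4.w + 8 ^ n F4.v
    rfl
  · change 8 ^ n F4.o + 8 ^ n F4.w + 8 ^ n F4.v + 8 ^ n F4.i = 8 ^ n F4.o + 8 ^ n F4.i + 8 ^ n F4.w + 8 ^ n F4.v
    omega
  · change 8 ^ n F4.o + 8 ^ n F4.v + 8 ^ n F4.i + 8 ^ n F4.w = 8 ^ n F4.o + 8 ^ n F4.i + 8 ^ n F4.w + 8 ^ n F4.v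
    omega

theorem mxf_mul (n : F4 → ℕ) {e : F4} (he : e ≠ 0) : mxf (fun x => n (e * x)) = mxf n := by
  rcases mul_cases e he with rfl | rfl | rfl
  · change max (max (n F4.o) (n F4.i)) (max (n F4.w) (n F4.v)) = max (max (n F4.o) (n F4.i)) (max (n F4.w) (n F4.v))
    rfl
  · change max (max (n F4.o) (n F4.w)) (max (n F4.v) (n F4.i)) = max (max (n F4.o) (n F4.i)) (max (n F4.w) (n F4.v))
    omega
  · change max (max (n F4.o) (n F4.v)) (max (n F4.i) (n F4.w)) = max (max (n F4.o) (n F4.i)) (max (n F4.w) (n F4.v))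
    omega

theorem pc_dj (p : Fin 21) (i : Fin 5) : pc K (cl p i) p = codeOf (hist (ct (K p) (dj p i))) := by
  unfold pc
  congr 1
  have h : cnt K (cl p i) p = fun x => ct (K p) (dj p i) ((de p i)⁻¹ * x) := funext (cnt_dj p i)
  rw [h, hist_mul _ (inv_ne_zero (de_ne p i))]

theorem mx_dj (p : Fin 21) (i : Fin 5) : mxf (cnt K (cl p i) p) = mxf (ct (K p) (dj p i)) := by
  have h : cnt K (cl p i) p = fun x => ct (K p) (dj p i) ((de p i)⁻¹ * x) := funext (cnt_dj p i)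
  rw [h, mxf_mul _ (inv_ne_zero (de_ne p i))]

theorem inc_symm (a p : Fin 21) : vec a ⬝ᵥ vec p = 0 ↔ vec p ⬝ᵥ vec a = 0 := by rw [dotProduct_comm]

/-- The lines through p are cl p i. -/
theorem exists_cl' {a p : Fin 21} (h : vec a ⬝ᵥ vec p = 0) : ∃ i, cl p i = a :=
  exists_cl ((inc_symm a p).1 h)

theorem cnt_le {a p : Fin 21} (h : vec a ⬝ᵥ vec p = 0) (x : F4) : cnt K a p x ≤ 4 := by
  obtain ⟨i, rfl⟩ := exists_cl' h
  rw [cnt_dj]
  exact ct_le _ _ _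

theorem cnt_sum (a p : Fin 21) :
    cnt K a p F4.o + cnt K a p F4.i + cnt K a p F4.w + cnt K a p F4.v = u K p := by
  have h := Finset.card_eq_sum_card_fiberwise (s := K p) (t := Finset.univ) (f := fun t => lab a p t)
    (fun t _ => Finset.mem_coe.2 (Finset.mem_univ _))
  have h1 : (Finset.univ : Finset F4) = {F4.o, F4.i, F4.w, F4.v} := by decide
  rw [h1, Finset.sum_insert (by decide), Finset.sum_insert (by decide), Finset.sum_insert (by decide),
    Finset.sum_singleton] at h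
  unfold u cnt
  omega

/-- The sixteen line inequalities. -/
theorem Ok16 {n0 n1 n2 n3 n4 : F4 → ℕ} (h : Ok n0 n1 n2 n3 n4) :
    (n0 F4.o + n1 F4.o + n2 F4.o + n3 F4.o + n4 F4.o ≤ 7 ∧ n0 F4.o + n1 F4.i + n2 F4.i + n3 F4.i + n4 F4.i ≤ 7 ∧
    n0 F4.o + n1 F4.w + n2 F4.w + n3 F4.w + n4 F4.w ≤ 7 ∧ n0 F4.o + n1 F4.v + n2 F4.v + n3 F4.v + n4 F4.v ≤ 7) ∧
    (n0 F4.i + n1 F4.o + n2 F4.i + n3 F4.w + n4 F4.v ≤ 7 ∧ n0 F4.i + n1 F4.i + n2 F4.o + n3 F4.v + n4 F4.w ≤ 7 ∧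
    n0 F4.i + n1 F4.w + n2 F4.v + n3 F4.o + n4 F4.i ≤ 7 ∧ n0 F4.i + n1 F4.v + n2 F4.w + n3 F4.i + n4 F4.o ≤ 7) ∧
    (n0 F4.w + n1 F4.o + n2 F4.w + n3 F4.v + n4 F4.i ≤ 7 ∧ n0 F4.w + n1 F4.i + n2 F4.v + n3 F4.w + n4 F4.o ≤ 7 ∧
    n0 F4.w + n1 F4.w + n2 F4.o + n3 F4.i + n4 F4.v ≤ 7 ∧ n0 F4.w + n1 F4.v + n2 F4.i + n3 F4.o + n4 F4.w ≤ 7) ∧
    (n0 F4.v + n1 F4.o + n2 F4.v + n3 F4.i + n4 F4.w ≤ 7 ∧ n0 F4.v + n1 F4.i + n2 F4.w + n3 F4.o + n4 F4.v ≤ 7 ∧
    n0 F4.v + n1 F4.w + n2 F4.i + n3 F4.v + n4 F4.o ≤ 7 ∧ n0 F4.v + n1 F4.v + n2 F4.o + n3 F4.w + n4 F4.i ≤ 7) :=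
  ⟨⟨h F4.o F4.o, h F4.i F4.o, h F4.w F4.o, h F4.v F4.o⟩, ⟨h F4.o F4.i, h F4.i F4.i, h F4.w F4.i, h F4.v F4.i⟩,
    ⟨h F4.o F4.w, h F4.i F4.w, h F4.w F4.w, h F4.v F4.w⟩, ⟨h F4.o F4.v, h F4.i F4.v, h F4.w F4.v, h F4.v F4.v⟩⟩

/-- The sum of the values. -/
def tot (n : F4 → ℕ) : ℕ := n F4.o + n F4.i + n F4.w + n F4.v

theorem add4 {a b c d : ℕ} (h1 : a ≤ 7) (h2 : b ≤ 7) (h3 : c ≤ 7) (h4 : d ≤ 7) : a + b + c + d ≤ 28 := by omega

theorem Ok.loc {n0 n1 n2 n3 n4 : F4 → ℕ} (h : Ok n0 n1 n2 n3 n4) (x : F4) :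
    4 * n0 x + (tot n1 + tot n2 + tot n3 + tot n4) ≤ 28 ∧ 4 * n1 x + (tot n0 + tot n2 + tot n3 + tot n4) ≤ 28 ∧
    4 * n2 x + (tot n0 + tot n1 + tot n3 + tot n4) ≤ 28 ∧ 4 * n3 x + (tot n0 + tot n1 + tot n2 + tot n4) ≤ 28 ∧
    4 * n4 x + (tot n0 + tot n1 + tot n2 + tot n3) ≤ 28 := by
  obtain ⟨⟨h1, h2, h3, h4⟩, ⟨h5, h6, h7, h8⟩, ⟨h9, h10, h11, h12⟩, ⟨h13, h14, h15, h16⟩⟩ := Ok16 h
  cases x
  · exact ⟨le_trans (le_of_eq (by unfold tot; ring)) (add4 h1 h2 h3 h4),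
      le_trans (le_of_eq (by unfold tot; ring)) (add4 h1 h5 h9 h13),
      le_trans (le_of_eq (by unfold tot; ring)) (add4 h1 h6 h11 h16),
      le_trans (le_of_eq (by unfold tot; ring)) (add4 h1 h7 h12 h14),
      le_trans (le_of_eq (by unfold tot; ring)) (add4 h1 h8 h10 h15)⟩
  · exact ⟨le_trans (le_of_eq (by unfold tot; ring)) (add4 h5 h6 h7 h8),
      le_trans (le_of_eq (by unfold tot; ring)) (add4 h2 h6 h10 h14),
      le_trans (le_of_eq (by unfold tot; ring)) (add4 h2 h5 h12 h15),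
      le_trans (le_of_eq (by unfold tot; ring)) (add4 h2 h8 h11 h13),
      le_trans (le_of_eq (by unfold tot; ring)) (add4 h2 h7 h9 h16)⟩
  · exact ⟨le_trans (le_of_eq (by unfold tot; ring)) (add4 h9 h10 h11 h12),
      le_trans (le_of_eq (by unfold tot; ring)) (add4 h3 h7 h11 h15),
      le_trans (le_of_eq (by unfold tot; ring)) (add4 h3 h8 h9 h14),
      le_trans (le_of_eq (by unfold tot; ring)) (add4 h3 h5 h10 h16),
      le_trans (le_of_eq (by unfold tot; ring)) (add4 h3 h6 h12 h13)⟩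
  · exact ⟨le_trans (le_of_eq (by unfold tot; ring)) (add4 h13 h14 h15 h16),
      le_trans (le_of_eq (by unfold tot; ring)) (add4 h4 h8 h12 h16),
      le_trans (le_of_eq (by unfold tot; ring)) (add4 h4 h7 h10 h13),
      le_trans (le_of_eq (by unfold tot; ring)) (add4 h4 h6 h9 h15),
      le_trans (le_of_eq (by unfold tot; ring)) (add4 h4 h5 h11 h14)⟩

theorem tot_cnt (a p : Fin 21) : tot (cnt K a p) = u K p := cnt_sum a p

/-- L1. -/
theorem L1' (h : LineBound F4.frob 7 K) (a : Fin 21) (i : Fin 5) (x : F4) :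
    4 * cnt K a (cl a i) x + wt K a ≤ 28 + u K (cl a i) := by
  have h1 := Ok.loc (ok_frob h a) x
  rw [tot_cnt, tot_cnt, tot_cnt, tot_cnt, tot_cnt] at h1
  unfold wt
  fin_cases i
  · change 4 * cnt K a (cl a 0) x + _ ≤ 28 + u K (cl a 0)
    omega
  · change 4 * cnt K a (cl a 1) x + _ ≤ 28 + u K (cl a 1)
    omega
  · change 4 * cnt K a (cl a 2) x + _ ≤ 28 + u K (cl a 2)
    omega
  · change 4 * cnt K a (cl a 3) x + _ ≤ 28 + u K (cl a 3)
    omega
  · change 4 * cnt K a (cl a 4) x + _ ≤ 28 + u K (cl a 4)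
    omega

theorem L1 (h : LineBound F4.frob 7 K) {a p : Fin 21} (hp : vec a ⬝ᵥ vec p = 0) (x : F4) :
    4 * cnt K a p x + wt K a ≤ 28 + u K p := by
  obtain ⟨i, rfl⟩ := exists_cl hp
  exact L1' h a i x

/-- The number of lines through two classes. -/
theorem lines_through : ∀ p q : Fin 21,
    (Finset.univ.filter (fun a : Fin 21 => vec a ⬝ᵥ vec p = 0 ∧ vec a ⬝ᵥ vec q = 0)).card =
      if p = q then 5 else 1 := by
  decide +kernel

theorem sum_on {M : Type} [AddCommMonoid M] (a : Fin 21) (f : Fin 21 → M) :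
    ∑ i : Fin 5, f (cl a i) = ∑ p : Fin 21, (if vec a ⬝ᵥ vec p = 0 then f p else 0) := by
  rw [← Finset.sum_filter, cl_image, Finset.sum_image (fun i _ j _ h => cl_inj a i j h)]

/-- FLAGS. -/
theorem flags {M : Type} [AddCommMonoid M] (f : Fin 21 → Fin 21 → M) :
    ∑ a : Fin 21, ∑ i : Fin 5, f a (cl a i) = ∑ p : Fin 21, ∑ i : Fin 5, f (cl p i) p := by
  have h1 : ∀ a : Fin 21, ∑ i : Fin 5, f a (cl a i) = ∑ p : Fin 21, (if vec a ⬝ᵥ vec p = 0 then f a p else 0) :=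
    fun a => sum_on a (fun p => f a p)
  have h2 : ∀ p : Fin 21, ∑ i : Fin 5, f (cl p i) p = ∑ a : Fin 21, (if vec a ⬝ᵥ vec p = 0 then f a p else 0) := by
    intro p
    rw [sum_on p (fun a => f a p)]
    refine Finset.sum_congr rfl fun a _ => ?_
    rw [dotProduct_comm]
  rw [Finset.sum_congr rfl fun a _ => h1 a, Finset.sum_congr rfl fun p _ => h2 p, Finset.sum_comm]

/-- PAIRS. -/
theorem pairs (f : Fin 21 → Fin 21 → ℤ) :
    ∑ a : Fin 21, ∑ i : Fin 5, ∑ j : Fin 5, f (cl a i) (cl a j) =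
      (∑ p : Fin 21, ∑ q : Fin 21, f p q) + 4 * ∑ p : Fin 21, f p p := by
  have h1 : ∀ a : Fin 21, ∑ i : Fin 5, ∑ j : Fin 5, f (cl a i) (cl a j) =
      ∑ p : Fin 21, ∑ q : Fin 21, (if vec a ⬝ᵥ vec p = 0 ∧ vec a ⬝ᵥ vec q = 0 then f p q else 0) := by
    intro a
    rw [sum_on a (fun p => ∑ j : Fin 5, f p (cl a j))]
    refine Finset.sum_congr rfl fun p _ => ?_
    by_cases h : vec a ⬝ᵥ vec p = 0
    · rw [if_pos h, sum_on a (fun q => f p q)]
      refine Finset.sum_congr rfl fun q _ => ?_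
      simp [h]
    · rw [if_neg h]
      symm
      refine Finset.sum_eq_zero fun q _ => ?_
      simp [h]
  rw [Finset.sum_congr rfl fun a _ => h1 a, Finset.sum_comm]
  have h2 : ∀ p : Fin 21, ∑ a : Fin 21, ∑ q : Fin 21,
      (if vec a ⬝ᵥ vec p = 0 ∧ vec a ⬝ᵥ vec q = 0 then f p q else 0) = (∑ q : Fin 21, f p q) + 4 * f p p := by
    intro p
    rw [Finset.sum_comm]
    have h3 : ∀ q : Fin 21, ∑ a : Fin 21, (if vec a ⬝ᵥ vec p = 0 ∧ vec a ⬝ᵥ vec q = 0 then f p q else 0) =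
        f p q + 4 * (if p = q then f p q else 0) := by
      intro q
      rw [← Finset.sum_filter, Finset.sum_const, lines_through p q]
      by_cases h : p = q
      · rw [if_pos h, if_pos h]
        simp
        ring
      · rw [if_neg h, if_neg h]
        simp
    rw [Finset.sum_congr rfl fun q _ => h3 q, Finset.sum_add_distrib, ← Finset.mul_sum,
      Finset.sum_ite_eq Finset.univ p (fun q => f p q), if_pos (Finset.mem_univ _)]
  rw [Finset.sum_congr rfl fun p _ => h2 p, Finset.sum_add_distrib, ← Finset.mul_sum]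

/-- L2. -/
theorem L2 (p : Fin 21) : ∑ i : Fin 5, wt K (cl p i) = (∑ q, u K q) + 4 * u K p := by
  have h1 : ∀ a : Fin 21, wt K a = ∑ q : Fin 21, (if vec a ⬝ᵥ vec q = 0 then u K q else 0) := by
    intro a
    rw [← sum_on a (fun q => u K q), Fin.sum_univ_five]
    rfl
  rw [sum_on p (fun a => wt K a)]
  have h2 : ∀ a : Fin 21, (if vec p ⬝ᵥ vec a = 0 then wt K a else 0) =
      ∑ q : Fin 21, (if vec a ⬝ᵥ vec p = 0 ∧ vec a ⬝ᵥ vec q = 0 then u K q else 0) := by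
    intro a
    rw [dotProduct_comm (vec p) (vec a)]
    by_cases h : vec a ⬝ᵥ vec p = 0
    · rw [if_pos h, h1 a]
      refine Finset.sum_congr rfl fun q _ => ?_
      simp [h]
    · rw [if_neg h]
      symm
      refine Finset.sum_eq_zero fun q _ => ?_
      simp [h]
  rw [Finset.sum_congr rfl fun a _ => h2 a, Finset.sum_comm]
  have h3 : ∀ q : Fin 21, ∑ a : Fin 21, (if vec a ⬝ᵥ vec p = 0 ∧ vec a ⬝ᵥ vec q = 0 then u K q else 0) =
      u K q + 4 * (if p = q then u K q else 0) := by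
    intro q
    rw [← Finset.sum_filter, Finset.sum_const, lines_through p q]
    by_cases h : p = q
    · rw [if_pos h, if_pos h, smul_eq_mul]
      omega
    · rw [if_neg h, if_neg h, smul_eq_mul]
      omega
  rw [Finset.sum_congr rfl fun q _ => h3 q, Finset.sum_add_distrib, ← Finset.mul_sum,
    Finset.sum_ite_eq Finset.univ p (fun q => u K q), if_pos (Finset.mem_univ _)]

/-- L3. -/
theorem L3 (h : LineBound F4.frob 7 K) (h99 : ∑ q, (K q).card = 99) (p : Fin 21) :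
    4 * ∑ i : Fin 5, mxf (cnt K (cl p i) p) ≤ 41 + u K p := by
  have h1 : ∀ i : Fin 5, 4 * mxf (cnt K (cl p i) p) + wt K (cl p i) ≤ 28 + u K p := by
    intro i
    have h2 : ∀ x, 4 * cnt K (cl p i) p x + wt K (cl p i) ≤ 28 + u K p := fun x =>
      L1 h ((inc_symm _ _).2 (cl_on p i)) x
    unfold mxf
    have h3 := h2 F4.o
    have h4 := h2 F4.i
    have h5 := h2 F4.w
    have h6 := h2 F4.v
    omega
  have h2 := L2 (K := K) p
  have h3 : ∑ q, u K q = 99 := h99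
  rw [h3, Fin.sum_univ_five] at h2
  rw [Fin.sum_univ_five]
  have a0 := h1 0
  have a1 := h1 1
  have a2 := h1 2
  have a3 := h1 3
  have a4 := h1 4
  omega

/-- The types of the classes. -/
theorem class_type (h : LineBound F4.frob 7 K) (h99 : ∑ q, (K q).card = 99) (p : Fin 21) :
    ∃ T ∈ TY, T.1 = u K p ∧
      List.Perm [pc K (cl p 0) p, pc K (cl p 1) p, pc K (cl p 2) p, pc K (cl p 3) p, pc K (cl p 4) p] T.2 := by
  have h1 := L3 h h99 p
  rw [Fin.sum_univ_five, mx_dj, mx_dj, mx_dj, mx_dj, mx_dj] at h1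
  have hp := dj_perm p
  have h2 : List.Perm [mxf (ct (K p) (dj p 0)), mxf (ct (K p) (dj p 1)), mxf (ct (K p) (dj p 2)),
      mxf (ct (K p) (dj p 3)), mxf (ct (K p) (dj p 4))] [mxf (ct (K p) 0), mxf (ct (K p) 1), mxf (ct (K p) 2),
      mxf (ct (K p) 3), mxf (ct (K p) 4)] := hp.map (fun j => mxf (ct (K p) j))
  have h3 := h2.sum_eq
  simp only [List.sum_cons, List.sum_nil] at h3
  obtain ⟨T, hT, hu, hperm⟩ := types_lem (K p) (by
    have : u K p = (K p).card := rfl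
    omega)
  refine ⟨T, hT, hu, ?_⟩
  rw [pc_dj, pc_dj, pc_dj, pc_dj, pc_dj]
  exact (hp.map (fun j => codeOf (hist (ct (K p) j)))).trans hperm

theorem pc_le (h : LineBound F4.frob 7 K) (h99 : ∑ q, (K q).card = 99) {a p : Fin 21}
    (hp : vec a ⬝ᵥ vec p = 0) : pc K a p ≤ 22 ∧ sz (pc K a p) = u K p := by
  obtain ⟨i, rfl⟩ := exists_cl' hp
  obtain ⟨T, hT, hu, hperm⟩ := class_type h h99 p
  rw [← hu]
  refine TY_le T hT _ (hperm.subset ?_)
  fin_cases i <;> simp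

theorem isPat_pc (h : LineBound F4.frob 7 K) (h99 : ∑ q, (K q).card = 99) {a p : Fin 21}
    (hp : vec a ⬝ᵥ vec p = 0) : IsPat (pc K a p) (cnt K a p) :=
  isPat_of (cnt_le hp) (pc_le h h99 hp).1

/-- A counterexample has a subset with exactly 99 points. -/
theorem exists_99 (h : LineBound F4.frob 7 K) (h99 : 99 ≤ ∑ q, (K q).card) :
    ∃ K' : Fin 21 → Finset (F4 × F4), LineBound F4.frob 7 K' ∧ ∑ q, (K' q).card = 99 := by
  have h1 : 99 ≤ (Finset.univ.sigma K).card := by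
    rw [Finset.card_sigma]
    exact h99
  obtain ⟨S, hS, hc⟩ := Finset.exists_subset_card_eq h1
  classical
  let K' : Fin 21 → Finset (F4 × F4) := fun q => Finset.univ.filter (fun t => (⟨q, t⟩ : (_ : Fin 21) × (F4 × F4)) ∈ S)
  have hsub : ∀ q, K' q ⊆ K q := by
    intro q t ht
    exact (Finset.mem_sigma.1 (hS (Finset.mem_filter.1 ht).2)).2
  refine ⟨K', fun a c => le_trans (Finset.sum_le_sum fun p _ => ?_) (h a c), ?_⟩
  · by_cases hp : vec a ⬝ᵥ vec p = 0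
    · rw [if_pos hp, if_pos hp]
      exact Finset.card_le_card (Finset.filter_subset_filter _ (hsub p))
    · rw [if_neg hp, if_neg hp]
  · have h2 : Finset.univ.sigma K' = S := by
      ext ⟨q, t⟩
      rw [Finset.mem_sigma, Finset.mem_filter]
      exact ⟨fun h3 => h3.2.2, fun h3 => ⟨Finset.mem_univ _, Finset.mem_univ _, h3⟩⟩
    rw [← Finset.card_sigma, h2, hc]

end Pool.Agent.Lib.MP_4dc748_co.RS
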