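import Pool.Agent.Lib.MP_4dc748_co.RS.F4
import Pool.Agent.Lib.MP_4dc748_co.TA.St
import Pool.Agent.Lib.MP_4dc748_co.TA.PlaneA

/-!
# The truncated skew polynomial ring F[X; s]/(X^2)
-/

set_option autoImplicit false

namespace Pool.Agent.Lib.MP_4dc748_co.RS

open Pool.Agent.Lib.MP_4dc748_co.TA

/-- The ring F[X; s]/(X^2), x + y X with X c = s(c) X and X^2 = 0. -/
@[ext]
structure Sk (F : Type) [Field F] (s : F ≃+* F) where
  x : F
  y : F

namespace Sk

variable {F : Type} [Field F] {s : F ≃+* F}

instance : Zero (Sk F s) := ⟨⟨0, 0⟩⟩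
instance : One (Sk F s) := ⟨⟨1, 0⟩⟩
instance : Add (Sk F s) := ⟨fun a b => ⟨a.x + b.x, a.y + b.y⟩⟩
instance : Neg (Sk F s) := ⟨fun a => ⟨-a.x, -a.y⟩⟩
instance : Mul (Sk F s) := ⟨fun a b => ⟨a.x * b.x, a.x * b.y + a.y * s b.x⟩⟩

@[simp] theorem zero_x : (0 : Sk F s).x = 0 := rfl
@[simp] theorem zero_y : (0 : Sk F s).y = 0 := rfl
@[simp] theorem one_x : (1 : Sk F s).x = 1 := rfl
@[simp] theorem one_y : (1 : Sk F s).y = 0 := rfl
@[simp] theorem add_x (a b : Sk F s) : (a + b).x = a.x + b.x := rfl
@[simp] theorem add_y (a b : Sk F s) : (a + b).y = a.y + b.y := rfl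
@[simp] theorem neg_x (a : Sk F s) : (-a).x = -a.x := rfl
@[simp] theorem neg_y (a : Sk F s) : (-a).y = -a.y := rfl
@[simp] theorem mul_x (a b : Sk F s) : (a * b).x = a.x * b.x := rfl
@[simp] theorem mul_y (a b : Sk F s) : (a * b).y = a.x * b.y + a.y * s b.x := rfl

instance : Ring (Sk F s) where
  add_assoc a b c := by ext <;> simp [add_assoc]
  zero_add a := by ext <;> simp
  add_zero a := by ext <;> simp
  add_comm a b := by ext <;> simp [add_comm]
  mul_assoc a b c := by
    ext
    · simp [mul_assoc]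
    · simp only [mul_x, mul_y, map_mul]
      ring
  one_mul a := by ext <;> simp
  mul_one a := by ext <;> simp
  left_distrib a b c := by
    ext
    · simp [mul_add]
    · simp only [mul_y, add_x, add_y, map_add]
      ring
  right_distrib a b c := by
    ext
    · simp [add_mul]
    · simp only [mul_y, add_x, add_y]
      ring
  zero_mul a := by ext <;> simp
  mul_zero a := by ext <;> simp
  neg_add_cancel a := by ext <;> simp
  nsmul := nsmulRec
  zsmul := zsmulRec

/-- Coordinates. -/
def equivProd : Sk F s ≃+ F × F where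
  toFun := fun a => (a.x, a.y)
  invFun := fun p => ⟨p.1, p.2⟩
  left_inv := fun _ => rfl
  right_inv := fun _ => rfl
  map_add' := fun _ _ => rfl

/-- Coordinates. -/
def coord : Coord (Sk F s) F s where
  e := equivProd
  e_one := rfl
  e_mul := fun _ _ => rfl

instance [Finite F] : Finite (Sk F s) := Finite.of_equiv _ equivProd.symm.toEquiv

theorem card_eq : Nat.card (Sk F s) = Nat.card F ^ 2 := by
  rw [Nat.card_congr (equivProd (F := F) (s := s)).toEquiv, Nat.card_prod, sq]

instance [h : CharP F 2] : CharP (Sk F s) 2 := by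
  refine CharTwo.of_one_ne_zero_of_two_eq_zero ?_ ?_
  · intro h1
    have h2 := congrArg Sk.x h1
    exact one_ne_zero h2
  · rw [← one_add_one_eq_two]
    ext
    · simp only [add_x, one_x, zero_x]
      exact CharTwo.add_self_eq_zero 1
    · simp

/-- The residue map. -/
def res : Sk F s →+* F where
  toFun := fun a => a.x
  map_one' := rfl
  map_mul' := fun _ _ => rfl
  map_zero' := rfl
  map_add' := fun _ _ => rfl

theorem res_surjective : Function.Surjective (res (F := F) (s := s)) := fun c => ⟨⟨c, 0⟩, rfl⟩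

/-- Elements which are not in the radical are units. -/
theorem isUnit_iff (a : Sk F s) : IsUnit a ↔ a.x ≠ 0 := by
  constructor
  · intro h
    exact (h.map (res (F := F) (s := s))).ne_zero
  · intro h
    have h1 : s a.x ≠ 0 := by
      intro h2
      exact h ((map_eq_zero_iff s s.injective).1 h2)
    refine ⟨⟨a, ⟨a.x⁻¹, -(a.x⁻¹ * a.y * s (a.x⁻¹))⟩, ?_, ?_⟩, rfl⟩
    · ext
      · simp [h]
      · simp only [mul_y, one_y]
        field_simp
        ring
    · ext
      · simp [h]
      · simp only [mul_y, one_y, map_inv₀]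
        field_simp
        ring

/-- Proper left ideals are contained in the radical. -/
theorem le_ker {I : Submodule (Sk F s) (Sk F s)} (hI : I ≠ ⊤) {a : Sk F s} (ha : a ∈ I) : a.x = 0 := by
  by_contra h
  exact hI (Ideal.eq_top_of_isUnit_mem I ha ((isUnit_iff a).2 h))

theorem ker_ne_top : RingHom.ker (res (F := F) (s := s)) ≠ ⊤ := by
  intro h
  have h1 : (1 : Sk F s) ∈ RingHom.ker (res (F := F) (s := s)) := by
    rw [h]
    trivial
  rw [RingHom.mem_ker, map_one] at h1
  exact one_ne_zero h1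

theorem jacobson_eq : Ring.jacobson (Sk F s) = RingHom.ker (res (F := F) (s := s)) := by
  have h1 : ∀ I : Submodule (Sk F s) (Sk F s), IsCoatom I → I = RingHom.ker (res (F := F) (s := s)) := by
    intro I hI
    by_contra h
    have h2 : I < RingHom.ker (res (F := F) (s := s)) := by
      refine lt_of_le_of_ne (fun a ha => ?_) h
      rw [RingHom.mem_ker]
      exact le_ker hI.1 ha
    exact ker_ne_top (hI.2 _ h2)
  have h3 : IsCoatom (RingHom.ker (res (F := F) (s := s)) : Submodule (Sk F s) (Sk F s)) := by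
    refine ⟨ker_ne_top, fun I hI => ?_⟩
    by_contra h
    refine not_le_of_gt hI fun a ha => ?_
    rw [RingHom.mem_ker]
    exact le_ker h ha
  refine le_antisymm (sInf_le h3) (le_sInf fun I hI => ?_)
  rw [h1 I hI]

/-- The residue field is F. -/
theorem residue (F : Type) [Field F] (s : F ≃+* F) :
    Nonempty ((Sk F s ⧸ Ring.jacobson (Sk F s)) ≃+* F) := by
  have hJ : ∀ a : Sk F s, a ∈ Ring.jacobson (Sk F s) ↔ res a = 0 := by
    intro a
    rw [jacobson_eq, RingHom.mem_ker]
  refine ⟨RingEquiv.ofBijective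
    (Ideal.Quotient.lift (Ring.jacobson (Sk F s)) res (fun a ha => (hJ a).1 ha)) ⟨?_, ?_⟩⟩
  · rw [injective_iff_map_eq_zero]
    intro a
    obtain ⟨a, rfl⟩ := Ideal.Quotient.mk_surjective a
    intro h
    rw [Ideal.Quotient.lift_mk] at h
    exact Ideal.Quotient.eq_zero_iff_mem.2 ((hJ a).2 h)
  · intro c
    exact ⟨Ideal.Quotient.mk _ ⟨c, 0⟩, by rw [Ideal.Quotient.lift_mk]; rfl⟩

/-- Sk F s is a chain ring. -/
theorem isChainRing (F : Type) [Field F] (s : F ≃+* F) : IsChainRing (Sk F s) := by
  constructor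
  · -- a nonzero left ideal contains the radical
    have h1 : ∀ I : Submodule (Sk F s) (Sk F s), I ≠ ⊥ → ∀ c : F, (⟨0, c⟩ : Sk F s) ∈ I := by
      intro I hI c
      obtain ⟨a, ha, ha0⟩ := (Submodule.ne_bot_iff I).1 hI
      by_cases hx : a.x = 0
      · have hy : a.y ≠ 0 := fun hy => ha0 (Sk.ext hx hy)
        have h2 := I.smul_mem (⟨c / a.y, 0⟩ : Sk F s) ha
        convert h2 using 1
        ext
        · simp [hx]
        · simp [hx, hy]
      · rw [Ideal.eq_top_of_isUnit_mem I ha ((isUnit_iff a).2 hx)]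
        trivial
    intro I K
    by_cases hK : K = ⊤
    · left
      rw [hK]
      exact le_top
    · by_cases hI : I = ⊥
      · left
        rw [hI]
        exact bot_le
      · right
        intro a ha
        have h2 := h1 I hI a.y
        have h3 : a = ⟨0, a.y⟩ := Sk.ext (le_ker hK ha) rfl
        rw [h3]
        exact h2
  · have h0 : ∀ I : Submodule (Sk F s)ᵐᵒᵖ (Sk F s), I ≠ ⊤ → ∀ a ∈ I, a.x = 0 := by
      intro I hI a ha
      by_contra h
      obtain ⟨u, hu⟩ := (isUnit_iff a).2 h
      refine hI (Submodule.eq_top_iff'.2 fun b => ?_)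
      have h2 := I.smul_mem (MulOpposite.op ((↑u⁻¹ : Sk F s) * b)) ha
      change a * ((↑u⁻¹ : Sk F s) * b) ∈ I at h2
      rw [← mul_assoc, ← hu, Units.mul_inv, one_mul] at h2
      exact h2
    have h1 : ∀ I : Submodule (Sk F s)ᵐᵒᵖ (Sk F s), I ≠ ⊥ → ∀ c : F, (⟨0, c⟩ : Sk F s) ∈ I := by
      intro I hI c
      obtain ⟨a, ha, ha0⟩ := (Submodule.ne_bot_iff I).1 hI
      by_cases hx : a.x = 0
      · have hy : a.y ≠ 0 := fun hy => ha0 (Sk.ext hx hy)
        have h2 := I.smul_mem (MulOpposite.op (⟨s.symm (c / a.y), 0⟩ : Sk F s)) ha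
        change a * (⟨s.symm (c / a.y), 0⟩ : Sk F s) ∈ I at h2
        convert h2 using 1
        ext
        · simp [hx]
        · simp only [mul_y, hx, zero_mul, zero_add, RingEquiv.apply_symm_apply]
          field_simp
      · have h3 : I = ⊤ := by
          by_contra h4
          exact hx (h0 I h4 a ha)
        rw [h3]
        trivial
    intro I K
    by_cases hK : K = ⊤
    · left
      rw [hK]
      exact le_top
    · by_cases hI : I = ⊥
      · left
        rw [hI]
        exact bot_le
      · right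
        intro a ha
        have h2 := h1 I hI a.y
        have h3 : a = ⟨0, a.y⟩ := Sk.ext (h0 K hK a ha) rfl
        rw [h3]
        exact h2

/-- Commutativity. -/
theorem comm_of_refl (a b : Sk F (RingEquiv.refl F)) : a * b = b * a := by
  ext
  · simp [mul_comm]
  · simp only [mul_y, RingEquiv.refl_apply]
    ring

/-- If s is not the identity then the two rings are not isomorphic. -/
theorem not_iso {s : F ≃+* F} (hs : ∃ c, s c ≠ c) : IsEmpty (Sk F (RingEquiv.refl F) ≃+* Sk F s) := by
  constructor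
  intro e
  obtain ⟨c, hc⟩ := hs
  have h1 : (⟨0, 1⟩ : Sk F s) * ⟨c, 0⟩ = ⟨c, 0⟩ * ⟨0, 1⟩ := by
    have h2 := comm_of_refl (e.symm ⟨0, 1⟩) (e.symm ⟨c, 0⟩)
    have h3 := congrArg e h2
    simpa only [map_mul, RingEquiv.apply_symm_apply] using h3
  have h4 := congrArg Sk.y h1
  simp only [mul_y, zero_mul, mul_one, zero_add, map_zero, mul_zero, add_zero, one_mul] at h4
  exact hc h4

end Sk

end Pool.Agent.Lib.MP_4dc748_co.RS
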