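import Pool.Agent.Lib.MP_4dc748_co.LL.Main
import Pool.Agent.Lib.MP_4dc748_co.RS.Iface

/-!
# The types of the subsets of the affine plane of order 4

phi j (j < 5) are the five directions of F4 x F4, ct A j x is the number of points of A on the segment x of the
direction j. If 4 (sum of the five largest ct A j x) <= 41 + |A| then the five patterns of A form one of 16 types.
-/

set_option autoImplicit false

namespace Pool.Agent.Lib.MP_4dc748_co.RS

open Pool.Agent.Lib.MP_4dc748_co.LL

/-- The five directions. -/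
def phi (j : Fin 5) (t : F4 × F4) : F4 :=
  if j.1 = 0 then t.2 else t.1 + el (j.1 - 1) * t.2

/-- The number of an element of F4. -/
def cd : F4 → ℕ
  | F4.o => 0
  | F4.i => 1
  | F4.w => 2
  | F4.v => 3

/-- The histogram of a label function. -/
def hist (n : F4 → ℕ) : ℕ := 8 ^ n F4.o + 8 ^ n F4.i + 8 ^ n F4.w + 8 ^ n F4.v

/-- The histograms of the patterns with the numbers 0, .., 22. -/
def hts : List ℕ := [4, 11, 18, 25, 32, 67, 74, 81, 88, 130, 137, 144, 193, 200, 256, 515, 522, 529, 578, 1026,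
  4099, 4610, 8194]

/-- The place of h in a list. -/
def idx (h : ℕ) : List ℕ → ℕ
  | [] => 0
  | x :: l => bif Nat.beq h x then 0 else Nat.succ (idx h l)

/-- The number of the pattern with histogram h (23 if there is none). -/
def codeOf (h : ℕ) : ℕ := idx h hts

/-- The largest value. -/
def mxf (n : F4 → ℕ) : ℕ := max (max (n F4.o) (n F4.i)) (max (n F4.w) (n F4.v))

theorem le_mxf (n : F4 → ℕ) (x : F4) : n x ≤ mxf n := by
  unfold mxf
  cases x <;> omega

theorem mxf_le {n : F4 → ℕ} {m : ℕ} (h : ∀ x, n x ≤ m) : mxf n ≤ m := by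
  unfold mxf
  have h0 := h F4.o
  have h1 := h F4.i
  have h2 := h F4.w
  have h3 := h F4.v
  omega

theorem mxf_mono {n m : F4 → ℕ} (h : ∀ x, n x ≤ m x) : mxf n ≤ mxf m :=
  mxf_le fun x => (h x).trans (le_mxf m x)

theorem isPat_chk : ∀ a b c d : Fin 5, codeOf (8 ^ a.1 + 8 ^ b.1 + 8 ^ c.1 + 8 ^ d.1) ≤ 22 →
    ∃ e0 : F4, a.1 = pf (codeOf (8 ^ a.1 + 8 ^ b.1 + 8 ^ c.1 + 8 ^ d.1)) e0 ∧
    ∃ e1 : F4, e1 ≠ e0 ∧ b.1 = pf (codeOf (8 ^ a.1 + 8 ^ b.1 + 8 ^ c.1 + 8 ^ d.1)) e1 ∧
    ∃ e2 : F4, e2 ≠ e0 ∧ e2 ≠ e1 ∧ c.1 = pf (codeOf (8 ^ a.1 + 8 ^ b.1 + 8 ^ c.1 + 8 ^ d.1)) e2 ∧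
    ∃ e3 : F4, e3 ≠ e0 ∧ e3 ≠ e1 ∧ e3 ≠ e2 ∧
      d.1 = pf (codeOf (8 ^ a.1 + 8 ^ b.1 + 8 ^ c.1 + 8 ^ d.1)) e3 := by
  decide +kernel

theorem isPat_of {n : F4 → ℕ} (h4 : ∀ x, n x ≤ 4) (hc : codeOf (hist n) ≤ 22) : IsPat (codeOf (hist n)) n := by
  obtain ⟨e0, h0, e1, h10, h1, e2, h20, h21, h2, e3, h30, h31, h32, h3⟩ :=
    isPat_chk ⟨n F4.o, Nat.lt_succ_of_le (h4 _)⟩ ⟨n F4.i, Nat.lt_succ_of_le (h4 _)⟩
      ⟨n F4.w, Nat.lt_succ_of_le (h4 _)⟩ ⟨n F4.v, Nat.lt_succ_of_le (h4 _)⟩ hc
  let e : F4 → F4 := fun x => match x with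
    | F4.o => e0
    | F4.i => e1
    | F4.w => e2
    | F4.v => e3
  refine ⟨e, ?_, ?_⟩
  · intro x y hxy
    cases x <;> cases y <;> simp only [e] at hxy <;>
      first
        | rfl
        | exact absurd hxy h10
        | exact absurd hxy.symm h10
        | exact absurd hxy h20
        | exact absurd hxy.symm h20
        | exact absurd hxy h21
        | exact absurd hxy.symm h21
        | exact absurd hxy h30
        | exact absurd hxy.symm h30
        | exact absurd hxy h31
        | exact absurd hxy.symm h31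
        | exact absurd hxy h32
        | exact absurd hxy.symm h32
  · intro x
    cases x
    exacts [h0, h1, h2, h3]

/-- The number of points of the list l on a segment. -/
def cl' (l : List (F4 × F4)) (j : Fin 5) (x : F4) : ℕ := l.countP (fun t => decide (phi j t = x))

/-- The number of points of A on the segment x of the direction j. -/
def ct (A : Finset (F4 × F4)) (j : Fin 5) (x : F4) : ℕ := (A.filter (fun t => phi j t = x)).card

/-- The weight of a point: the digits to the base 8 at the places 4 j + cd (phi j t) are 1. -/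
def wpt (t : F4 × F4) : ℕ :=
  8 ^ (cd (phi 0 t)) + 8 ^ (4 + cd (phi 1 t)) + 8 ^ (8 + cd (phi 2 t)) + 8 ^ (12 + cd (phi 3 t)) +
    8 ^ (16 + cd (phi 4 t))

/-- The number with the digits n o, n i, n w, n v to the base 8. -/
def dg (n : F4 → ℕ) : ℕ := n F4.o + 8 * n F4.i + 64 * n F4.w + 512 * n F4.v

theorem dg_lt {n : F4 → ℕ} (h : ∀ x, n x ≤ 4) : dg n < 4096 := by
  have h0 := h F4.o
  have h1 := h F4.i
  have h2 := h F4.w
  have h3 := h F4.v
  unfold dg
  omega

/-- Maximum. -/
def mx2 (a b : ℕ) : ℕ := bif Nat.ble a b then b else a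

theorem mx2_eq (a b : ℕ) : mx2 a b = max a b := by
  unfold mx2
  cases h : Nat.ble a b with
  | true =>
    have h1 := Nat.le_of_ble_eq_true h
    simp only [cond_true]
    omega
  | false =>
    have h1 : ¬ a ≤ b := fun h2 => by
      rw [Nat.ble_eq_true_of_le h2] at h
      exact absurd h (by decide)
    simp only [cond_false]
    omega

/-- The largest digit of a number with four digits to the base 8. -/
def mxd (d : ℕ) : ℕ :=
  mx2 (mx2 (Nat.mod d 8) (Nat.mod (Nat.div d 8) 8)) (mx2 (Nat.mod (Nat.div d 64) 8) (Nat.div d 512))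

/-- The histogram of a number with four digits to the base 8. -/
def hsd (d : ℕ) : ℕ :=
  Nat.add (Nat.add (Nat.pow 8 (Nat.mod d 8)) (Nat.pow 8 (Nat.mod (Nat.div d 8) 8)))
    (Nat.add (Nat.pow 8 (Nat.mod (Nat.div d 64) 8)) (Nat.pow 8 (Nat.div d 512)))

theorem dg_digits {n : F4 → ℕ} (h : ∀ x, n x ≤ 4) : dg n % 8 = n F4.o ∧ dg n / 8 % 8 = n F4.i ∧
    dg n / 64 % 8 = n F4.w ∧ dg n / 512 = n F4.v := by
  have h0 := h F4.o
  have h1 := h F4.i
  have h2 := h F4.w
  have h3 := h F4.v
  unfold dg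
  omega

theorem mxd_dg {n : F4 → ℕ} (h : ∀ x, n x ≤ 4) : mxd (dg n) = mxf n := by
  obtain ⟨h0, h1, h2, h3⟩ := dg_digits h
  change mx2 (mx2 (dg n % 8) (dg n / 8 % 8)) (mx2 (dg n / 64 % 8) (dg n / 512)) = _
  rw [h0, h1, h2, h3, mx2_eq, mx2_eq, mx2_eq]
  rfl

theorem hsd_dg {n : F4 → ℕ} (h : ∀ x, n x ≤ 4) : hsd (dg n) = hist n := by
  obtain ⟨h0, h1, h2, h3⟩ := dg_digits h
  change (8 ^ (dg n % 8) + 8 ^ (dg n / 8 % 8)) + (8 ^ (dg n / 64 % 8) + 8 ^ (dg n / 512)) = _
  rw [h0, h1, h2, h3]
  unfold hist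
  omega

/-- The sum of the weights of the points of a list. -/
def wsum (l : List (F4 × F4)) : ℕ := (l.map wpt).sum

theorem wpt_eq : ∀ t : F4 × F4, wpt t = dg (cl' [t] 0) + 4096 * (dg (cl' [t] 1) + 4096 * (dg (cl' [t] 2) +
    4096 * (dg (cl' [t] 3) + 4096 * dg (cl' [t] 4)))) := by
  decide +kernel

theorem cl'_cons (t : F4 × F4) (l : List (F4 × F4)) (j : Fin 5) (x : F4) :
    cl' (t :: l) j x = cl' [t] j x + cl' l j x := by
  unfold cl'
  rw [List.countP_cons, List.countP_cons, List.countP_nil]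
  omega

theorem dg_cons (t : F4 × F4) (l : List (F4 × F4)) (j : Fin 5) :
    dg (cl' (t :: l) j) = dg (cl' [t] j) + dg (cl' l j) := by
  unfold dg
  rw [cl'_cons t l j F4.o, cl'_cons t l j F4.i, cl'_cons t l j F4.w, cl'_cons t l j F4.v]
  omega

theorem wsum_eq (l : List (F4 × F4)) : wsum l = dg (cl' l 0) + 4096 * (dg (cl' l 1) + 4096 * (dg (cl' l 2) +
    4096 * (dg (cl' l 3) + 4096 * dg (cl' l 4)))) := by
  induction l with
  | nil => rfl
  | cons t l ih =>
    have h1 : wsum (t :: l) = wpt t + wsum l := rfl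
    rw [h1, ih, wpt_eq t, dg_cons t l 0, dg_cons t l 1, dg_cons t l 2, dg_cons t l 3, dg_cons t l 4]
    omega

/-- The five blocks of digits. -/
def blk (c : ℕ) : Fin 5 → ℕ
  | 0 => Nat.mod c 4096
  | 1 => Nat.mod (Nat.div c 4096) 4096
  | 2 => Nat.mod (Nat.div c 16777216) 4096
  | 3 => Nat.mod (Nat.div c 68719476736) 4096
  | 4 => Nat.div c 281474976710656

theorem seg_card : ∀ (j : Fin 5) (x : F4), (Finset.univ.filter (fun t : F4 × F4 => phi j t = x)).card = 4 := by
  decide +kernel

theorem cl'_le {l : List (F4 × F4)} (hl : l.Nodup) (j : Fin 5) (x : F4) : cl' l j x ≤ 4 := by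
  unfold cl'
  rw [List.countP_eq_length_filter]
  have h1 : (l.filter (fun t => decide (phi j t = x))).toFinset ⊆ Finset.univ.filter (fun t : F4 × F4 => phi j t = x) := by
    intro t ht
    rw [List.mem_toFinset, List.mem_filter] at ht
    exact Finset.mem_filter.2 ⟨Finset.mem_univ _, of_decide_eq_true ht.2⟩
  have h2 := Finset.card_le_card h1
  rw [seg_card, List.toFinset_card_of_nodup (hl.filter _)] at h2
  exact h2

theorem blk_eq {l : List (F4 × F4)} (hl : l.Nodup) (j : Fin 5) : blk (wsum l) j = dg (cl' l j) := by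
  have h0 := dg_lt (cl'_le hl 0)
  have h1 := dg_lt (cl'_le hl 1)
  have h2 := dg_lt (cl'_le hl 2)
  have h3 := dg_lt (cl'_le hl 3)
  have h4 := dg_lt (cl'_le hl 4)
  rw [wsum_eq l]
  fin_cases j
  · change (_ : ℕ) % 4096 = _
    change (_ : ℕ) % 4096 = dg (cl' l 0)
    omega
  · change (_ : ℕ) / 4096 % 4096 = dg (cl' l 1)
    omega
  · change (_ : ℕ) / 16777216 % 4096 = dg (cl' l 2)
    omega
  · change (_ : ℕ) / 68719476736 % 4096 = dg (cl' l 3)
    omega
  · change (_ : ℕ) / 281474976710656 = dg (cl' l 4)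
    omega

/-- The sum of the five largest digits. -/
def smx (c : ℕ) : ℕ :=
  Nat.add (mxd (Nat.mod c 4096)) (Nat.add (mxd (Nat.mod (Nat.div c 4096) 4096))
    (Nat.add (mxd (Nat.mod (Nat.div c 16777216) 4096)) (Nat.add (mxd (Nat.mod (Nat.div c 68719476736) 4096))
      (mxd (Nat.div c 281474976710656)))))

/-- Sum of the five longest segments of a list. -/
def sml (l : List (F4 × F4)) : ℕ :=
  mxf (cl' l 0) + (mxf (cl' l 1) + (mxf (cl' l 2) + (mxf (cl' l 3) + mxf (cl' l 4))))

theorem smx_eq {l : List (F4 × F4)} (hl : l.Nodup) : smx (wsum l) = sml l := by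
  have h : smx (wsum l) = mxd (blk (wsum l) 0) + (mxd (blk (wsum l) 1) + (mxd (blk (wsum l) 2) +
    (mxd (blk (wsum l) 3) + mxd (blk (wsum l) 4)))) := rfl
  rw [h, blk_eq hl, blk_eq hl, blk_eq hl, blk_eq hl, blk_eq hl, mxd_dg (cl'_le hl 0), mxd_dg (cl'_le hl 1),
    mxd_dg (cl'_le hl 2), mxd_dg (cl'_le hl 3), mxd_dg (cl'_le hl 4)]
  rfl

/-- Insertion into a sorted list. -/
def ins (x : ℕ) : List ℕ → List ℕ
  | [] => [x]
  | y :: l => bif Nat.ble y x then x :: y :: l else y :: ins x l

theorem ins_perm (x : ℕ) (l : List ℕ) : List.Perm (ins x l) (x :: l) := by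
  induction l with
  | nil => exact List.Perm.refl _
  | cons y l ih =>
    unfold ins
    cases Nat.ble y x with
    | true => exact List.Perm.refl _
    | false => exact (ih.cons y).trans (List.Perm.swap _ _ _)

/-- The sorted list of five numbers. -/
def srt5 (a b c d e : ℕ) : List ℕ := ins a (ins b (ins c (ins d (ins e []))))

theorem srt5_perm (a b c d e : ℕ) : List.Perm (srt5 a b c d e) [a, b, c, d, e] :=
  (ins_perm _ _).trans (List.Perm.cons _ ((ins_perm _ _).trans (List.Perm.cons _ ((ins_perm _ _).trans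
    (List.Perm.cons _ ((ins_perm _ _).trans (List.Perm.cons _ (ins_perm _ _))))))))

/-- Equality of lists. -/
def beqL : List ℕ → List ℕ → Bool
  | [], [] => true
  | x :: l, y :: m => bif Nat.beq x y then beqL l m else false
  | _, _ => false

theorem of_beqL : ∀ {l m : List ℕ}, beqL l m = true → l = m
  | [], [], _ => rfl
  | [], _ :: _, h => absurd h (by simp [beqL])
  | _ :: _, [], h => absurd h (by simp [beqL])
  | x :: l, y :: m, h => by
    unfold beqL at h
    cases hxy : Nat.beq x y with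
    | true =>
      rw [hxy] at h
      rw [Nat.eq_of_beq_eq_true hxy, of_beqL h]
    | false =>
      rw [hxy] at h
      exact Bool.noConfusion h

/-- The 16 types: the size and the sorted list of the numbers of the five patterns. -/
def TY : List (ℕ × List ℕ) :=
  [(0, [0, 0, 0, 0, 0]), (1, [1, 1, 1, 1, 1]), (2, [5, 2, 2, 2, 2]), (3, [15, 3, 3, 3, 3]), (3, [6, 6, 6, 3, 3]),
   (4, [9, 9, 9, 4, 4]), (4, [20, 4, 4, 4, 4]), (4, [9, 7, 7, 7, 7]), (4, [16, 7, 7, 7, 4]), (5, [10, 10, 10, 10, 10]),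
   (5, [17, 10, 10, 10, 8]), (5, [18, 10, 10, 8, 8]), (6, [12, 12, 12, 12, 12]), (6, [19, 12, 11, 11, 11]),
   (7, [21, 13, 13, 13, 13]), (8, [22, 14, 14, 14, 14])]

/-- Search in the table. -/
def inTY (u : ℕ) (l : List ℕ) : List (ℕ × List ℕ) → Bool
  | [] => false
  | T :: R => bif Nat.beq u T.1 then (bif beqL l T.2 then true else inTY u l R) else inTY u l R

theorem of_inTY {u : ℕ} {l : List ℕ} : ∀ {R : List (ℕ × List ℕ)}, inTY u l R = true → (u, l) ∈ R
  | [], h => absurd h (by simp [inTY])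
  | T :: R, h => by
    unfold inTY at h
    cases h1 : Nat.beq u T.1 with
    | true =>
      rw [h1] at h
      cases h2 : beqL l T.2 with
      | true =>
        have : (u, l) = T := Prod.ext (Nat.eq_of_beq_eq_true h1) (of_beqL h2)
        rw [this]
        exact List.mem_cons_self
      | false =>
        rw [h2] at h
        exact List.mem_cons_of_mem _ (of_inTY h)
    | false =>
      rw [h1] at h
      exact List.mem_cons_of_mem _ (of_inTY h)

/-- The check of one set. -/
def leaf (u c : ℕ) : Bool :=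
  bif Nat.ble (Nat.mul 4 (smx c)) (Nat.add 41 u) then
    inTY u (srt5 (codeOf (hsd (Nat.mod c 4096))) (codeOf (hsd (Nat.mod (Nat.div c 4096) 4096)))
      (codeOf (hsd (Nat.mod (Nat.div c 16777216) 4096))) (codeOf (hsd (Nat.mod (Nat.div c 68719476736) 4096)))
      (codeOf (hsd (Nat.div c 281474976710656)))) TY
  else true

/-- Evaluate the number first. -/
def frc (n : ℕ) (f : ℕ → Bool) : Bool := Nat.rec (f 0) (fun k _ => f (Nat.succ k)) n

theorem frc_eq (n : ℕ) (f : ℕ → Bool) : frc n f = f n := by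
  cases n <;> rfl

/-- The search. -/
def go : List ℕ → ℕ → ℕ → ℕ → Bool
  | [], _, u, c => leaf u c
  | w :: ws, r, u, c => bif Nat.ble (Nat.mul 4 (smx c)) (Nat.add (Nat.add 41 u) r) then
      (bif go ws (Nat.pred r) u c then frc (Nat.add w c) (fun c' => go ws (Nat.pred r) (Nat.succ u) c') else false)
      else true

/-- The points. -/
def pts : List (F4 × F4) := [(F4.o, F4.o), (F4.o, F4.i), (F4.o, F4.w), (F4.o, F4.v), (F4.i, F4.o), (F4.i, F4.i),
  (F4.i, F4.w), (F4.i, F4.v), (F4.w, F4.o), (F4.w, F4.i), (F4.w, F4.w), (F4.w, F4.v), (F4.v, F4.o), (F4.v, F4.i),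
  (F4.v, F4.w), (F4.v, F4.v)]

theorem go_chk : go (pts.map wpt) 16 0 0 = true := by decide +kernel

/-- The five codes of a list. -/
def cds (l : List (F4 × F4)) : List ℕ :=
  srt5 (codeOf (hist (cl' l 0))) (codeOf (hist (cl' l 1))) (codeOf (hist (cl' l 2))) (codeOf (hist (cl' l 3)))
    (codeOf (hist (cl' l 4)))

/-- The statement for a list. -/
def TyP (l : List (F4 × F4)) : Prop := 4 * sml l ≤ 41 + l.length → (l.length, cds l) ∈ TY

theorem cl'_perm {l m : List (F4 × F4)} (h : List.Perm l m) : cl' l = cl' m := by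
  funext j x
  exact h.countP_eq _

theorem TyP.perm {l m : List (F4 × F4)} (h : List.Perm l m) (hl : TyP l) : TyP m := by
  unfold TyP sml cds at hl ⊢
  rw [← cl'_perm h, ← h.length_eq]
  exact hl

theorem leaf_sound {l : List (F4 × F4)} (hl : l.Nodup) (h : leaf l.length (wsum l) = true) : TyP l := by
  intro h1
  have h2 : leaf l.length (wsum l) = bif Nat.ble (4 * smx (wsum l)) (41 + l.length) then
      inTY l.length (srt5 (codeOf (hsd (blk (wsum l) 0))) (codeOf (hsd (blk (wsum l) 1)))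
        (codeOf (hsd (blk (wsum l) 2))) (codeOf (hsd (blk (wsum l) 3))) (codeOf (hsd (blk (wsum l) 4)))) TY
      else true := rfl
  rw [h2, smx_eq hl, Nat.ble_eq_true_of_le h1, cond_true, blk_eq hl, blk_eq hl, blk_eq hl, blk_eq hl, blk_eq hl,
    hsd_dg (cl'_le hl 0), hsd_dg (cl'_le hl 1), hsd_dg (cl'_le hl 2), hsd_dg (cl'_le hl 3),
    hsd_dg (cl'_le hl 4)] at h
  exact of_inTY h

theorem cl'_append (l m : List (F4 × F4)) (j : Fin 5) (x : F4) : cl' (l ++ m) j x = cl' l j x + cl' m j x := by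
  unfold cl'
  exact List.countP_append

theorem sml_mono (l m : List (F4 × F4)) : sml m ≤ sml (l ++ m) := by
  have h : ∀ j, mxf (cl' m j) ≤ mxf (cl' (l ++ m) j) := fun j =>
    mxf_mono fun x => by
      rw [cl'_append]
      exact Nat.le_add_left _ _
  unfold sml
  have h0 := h 0
  have h1 := h 1
  have h2 := h 2
  have h3 := h 3
  have h4 := h 4
  omega

theorem go_sound : ∀ (r pre : List (F4 × F4)), (r ++ pre).Nodup →
    go (r.map wpt) r.length pre.length (wsum pre) = true → ∀ l : List (F4 × F4), l.Sublist r → TyP (l ++ pre)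
  | [], pre, hn, hg, l, hl => by
    rw [List.eq_nil_of_sublist_nil hl]
    exact leaf_sound hn hg
  | t :: r, pre, hn, hg, l, hl => by
    have hpre : pre.Nodup := (List.nodup_append.1 hn).2.1
    have h2 : go ((t :: r).map wpt) (t :: r).length pre.length (wsum pre) =
        bif Nat.ble (4 * smx (wsum pre)) (41 + pre.length + (t :: r).length) then
          (bif go (r.map wpt) r.length pre.length (wsum pre) then
            frc (wpt t + wsum pre) (fun c' => go (r.map wpt) r.length (pre.length + 1) c') else false)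
        else true := rfl
    rw [h2] at hg
    cases hb : Nat.ble (4 * smx (wsum pre)) (41 + pre.length + (t :: r).length) with
    | false =>
      intro h3
      exfalso
      rw [smx_eq hpre] at hb
      have h4 : ¬ 4 * sml pre ≤ 41 + pre.length + (t :: r).length := fun h5 => by
        rw [Nat.ble_eq_true_of_le h5] at hb
        exact Bool.noConfusion hb
      have h5 := sml_mono l pre
      have h6 := hl.length_le
      rw [List.length_append] at h3
      omega
    | true =>
      rw [hb, cond_true] at hg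
      cases h1 : go (r.map wpt) r.length pre.length (wsum pre) with
      | false =>
        rw [h1, cond_false] at hg
        exact Bool.noConfusion hg
      | true =>
        rw [h1, cond_true, frc_eq] at hg
        have hn' : (r ++ pre).Nodup := (List.nodup_cons.1 hn).2
        cases hl with
        | cons _ hl' => exact go_sound r pre hn' h1 l hl'
        | @cons_cons l' _ _ hl' =>
          have hn2 : (r ++ t :: pre).Nodup := by
            have : List.Perm (r ++ t :: pre) (t :: (r ++ pre)) := List.perm_middle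
            exact this.nodup_iff.2 hn
          have h7 := go_sound r (t :: pre) hn2 hg l' hl'
          exact h7.perm List.perm_middle

theorem pts_nodup : pts.Nodup := by decide

theorem mem_pts (t : F4 × F4) : t ∈ pts := by
  revert t
  decide

/-- The 16 types. -/
theorem types_lem (A : Finset (F4 × F4))
    (h : 4 * (mxf (ct A 0) + (mxf (ct A 1) + (mxf (ct A 2) + (mxf (ct A 3) + mxf (ct A 4))))) ≤ 41 + A.card) :
    ∃ T ∈ TY, T.1 = A.card ∧ List.Perm [codeOf (hist (ct A 0)), codeOf (hist (ct A 1)), codeOf (hist (ct A 2)),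
      codeOf (hist (ct A 3)), codeOf (hist (ct A 4))] T.2 := by
  let l := pts.filter (fun t => decide (t ∈ A))
  have hl : l.Nodup := pts_nodup.filter _
  have hA : l.toFinset = A := by
    ext t
    rw [List.mem_toFinset, List.mem_filter]
    exact ⟨fun h1 => of_decide_eq_true h1.2, fun h1 => ⟨mem_pts t, decide_eq_true h1⟩⟩
  have hlen : l.length = A.card := by rw [← hA, List.toFinset_card_of_nodup hl]
  have hct : cl' l = ct A := by
    funext j x
    unfold cl' ct
    rw [List.countP_eq_length_filter, ← List.toFinset_card_of_nodup (hl.filter _)]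
    congr 1
    ext t
    rw [List.mem_toFinset, List.mem_filter, Finset.mem_filter, ← hA, List.mem_toFinset]
    exact ⟨fun h1 => ⟨h1.1, of_decide_eq_true h1.2⟩, fun h1 => ⟨h1.1, decide_eq_true h1.2⟩⟩
  have h1 := go_sound pts [] (by rw [List.append_nil]; exact pts_nodup) go_chk l List.filter_sublist
  rw [List.append_nil] at h1
  unfold TyP sml cds at h1
  rw [hct, hlen] at h1
  exact ⟨_, h1 h, rfl, (srt5_perm _ _ _ _ _).symm⟩

theorem ct_le (A : Finset (F4 × F4)) (j : Fin 5) (x : F4) : ct A j x ≤ 4 := by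
  rw [← seg_card j x]
  exact Finset.card_le_card (Finset.filter_subset_filter _ (Finset.subset_univ _))

theorem TY_le : ∀ T ∈ TY, ∀ c ∈ T.2, c ≤ 22 ∧ sz c = T.1 := by decide +kernel

end Pool.Agent.Lib.MP_4dc748_co.RS
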